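import Pool.Agent.R179.H435E

open Pool.R179.LFC

namespace Pool.Agent.Results.MP_389659_co.OrderFiveCubic

/-- There is a combinatorially regular LFC tiling of Euclidean 3-space which is not isomorphic
to any regular tiling of Euclidean 3-space. (The tiling is a vertical projection of the
hyperbolic honeycomb of type `{4,3,5}`.) -/
theorem result : ∃ 𝒯 : Set (Set (E 3)), IsLFC 𝒯 ∧ CombRegular 𝒯 ∧
    ∀ 𝒯' : Set (Set (E 3)), IsLFC 𝒯' → IsRegular 𝒯' → IsEmpty (FL 𝒯 ≃o FL 𝒯') :=
  Pool.R179.H435.main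

end Pool.Agent.Results.MP_389659_co.OrderFiveCubic
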